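import Pool.Agent.H92.KST.TargetsX

set_option autoImplicit false

universe u

namespace Pool.Agent.H94.KST

open Pool.Agent.H92.KST

theorem pf_NA2 : T_NA2.{u} := by
  intro P B _ _ _ _ π x hx hπ hfin
  have := hx
  have hle : Ideal.span {algebraMap P B π} ≤ (x.under P).map (algebraMap P B) := by
    rw [Ideal.span_singleton_le_iff_mem]
    exact Ideal.mem_map_of_mem _ hπ
  have h1 : Module.Finite P (B ⧸ Ideal.span {algebraMap P B π}) := by
    rw [← RingHom.finite_algebraMap]
    exact hfin
  have h2 : Module.Finite P (B ⧸ (x.under P).map (algebraMap P B)) :=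
    Module.Finite.of_surjective (Ideal.Quotient.factorₐ P hle).toLinearMap
      (Ideal.Quotient.factor_surjective hle)
  have h3 : Algebra.WeaklyQuasiFiniteAt P x := by
    show Algebra.QuasiFinite P (Localization.AtPrime _)
    infer_instance
  obtain ⟨r, hr, hi, h⟩ := Algebra.zariskisMainProperty_iff.mp
    (Algebra.ZariskisMainProperty.of_finiteType_of_weaklyQuasiFiniteAt (R := P) x)
  exact ⟨r, hr, hi, h⟩

end Pool.Agent.H94.KST
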