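import Pool.Agent.H92.KST.Targets

/-!
# POL: an element with a single simple pole, at the horizontal prime `P`
-/

set_option autoImplicit false
set_option linter.dupNamespace false
set_option linter.unusedSectionVars false

universe u

namespace Pool.Agent.H94.KST

open Pool.Agent.H92.KST

section api

variable {R F : Type u} [CommRing R] [IsDomain R] [Field F] [Algebra R F] [IsFractionRing R F]

theorem am_ne {x : R} (h : x ≠ 0) : algebraMap R F x ≠ 0 := by
  rw [Ne, FaithfulSMul.algebraMap_eq_zero_iff]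
  exact h

theorem inL_of (T : Set (Ideal R)) (hT : ∀ q ∈ T, q.IsPrime) (x : R) :
    InL T (algebraMap R F x) :=
  ⟨1, x, one_ne_zero, fun q hq h => (hT q hq).ne_top ((Ideal.eq_top_iff_one q).2 h), by
    rw [map_one, one_mul]⟩

theorem inL_mul {T : Set (Ideal R)} (hT : ∀ q ∈ T, q.IsPrime) {f g : F} (hf : InL T f)
    (hg : InL T g) : InL T (f * g) := by
  obtain ⟨s, r, hs, hs', e⟩ := hf
  obtain ⟨s1, r1, hs1, hs1', e1⟩ := hg
  refine ⟨s * s1, r * r1, mul_ne_zero hs hs1, fun q hq h => ?_, ?_⟩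
  · rcases (hT q hq).mem_or_mem h with h | h
    · exact hs' q hq h
    · exact hs1' q hq h
  · rw [map_mul, map_mul, ← e, ← e1]
    ring

theorem inL_add {T : Set (Ideal R)} (hT : ∀ q ∈ T, q.IsPrime) {f g : F} (hf : InL T f)
    (hg : InL T g) : InL T (f + g) := by
  obtain ⟨s, r, hs, hs', e⟩ := hf
  obtain ⟨s1, r1, hs1, hs1', e1⟩ := hg
  refine ⟨s * s1, s1 * r + s * r1, mul_ne_zero hs hs1, fun q hq h => ?_, ?_⟩
  · rcases (hT q hq).mem_or_mem h with h | h
    · exact hs' q hq h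
    · exact hs1' q hq h
  · rw [map_add, map_mul, map_mul, map_mul, ← e, ← e1]
    ring

theorem inL_zero (T : Set (Ideal R)) (hT : ∀ q ∈ T, q.IsPrime) : InL T (0 : F) := by
  have := inL_of (F := F) T hT 0
  rwa [map_zero] at this

theorem sing {P : Ideal R} (hP : P.IsPrime) : ∀ q ∈ ({P} : Set (Ideal R)), q.IsPrime := by
  intro q hq
  rw [Set.mem_singleton_iff] at hq
  rw [hq]
  exact hP

theorem inL_frac {P : Ideal R} {a b : R} (hb : b ∉ P) :
    InL {P} (algebraMap R F a / algebraMap R F b) := by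
  have hb0 : b ≠ 0 := fun h => hb (h ▸ P.zero_mem)
  refine ⟨b, a, hb0, fun q hq => ?_, ?_⟩
  · rw [Set.mem_singleton_iff] at hq
    rw [hq]
    exact hb
  · rw [mul_div_cancel₀ _ (am_ne hb0)]

theorem unA_frac {P : Ideal R} {a b : R} (ha : a ∉ P) (hb : b ∉ P) :
    UnA P (algebraMap R F a / algebraMap R F b) := by
  have hb0 : b ≠ 0 := fun h => hb (h ▸ P.zero_mem)
  have ha0 : a ≠ 0 := fun h => ha (h ▸ P.zero_mem)
  refine ⟨div_ne_zero (am_ne ha0) (am_ne hb0), inL_frac hb, ?_⟩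
  rw [inv_div]
  exact inL_frac ha

theorem unA_mul {P : Ideal R} (hP : P.IsPrime) {f g : F} (hf : UnA P f) (hg : UnA P g) :
    UnA P (f * g) := by
  refine ⟨mul_ne_zero hf.1 hg.1, inL_mul (sing hP) hf.2.1 hg.2.1, ?_⟩
  rw [mul_inv]
  exact inL_mul (sing hP) hf.2.2 hg.2.2

theorem unA_inv {P : Ideal R} {f : F} (hf : UnA P f) : UnA P f⁻¹ :=
  ⟨inv_ne_zero hf.1, hf.2.2, by rw [inv_inv]; exact hf.2.1⟩

theorem unA_pow {P : Ideal R} (hP : P.IsPrime) {f : F} (hf : UnA P f) (k : ℕ) :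
    UnA P (f ^ k) := by
  induction k with
  | zero =>
    rw [pow_zero]
    have h := inL_of (F := F) _ (sing hP) (1 : R)
    rw [map_one] at h
    exact ⟨one_ne_zero, h, by rw [inv_one]; exact h⟩
  | succ k ih =>
    rw [pow_succ]
    exact unA_mul hP ih hf

theorem unA_zpow {P : Ideal R} (hP : P.IsPrime) {f : F} (hf : UnA P f) (k : ℤ) :
    UnA P (f ^ k) := by
  rcases k with k | k
  · rw [Int.ofNat_eq_natCast, zpow_natCast]
    exact unA_pow hP hf k
  · rw [zpow_negSucc]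
    exact unA_inv (unA_pow hP hf _)

/-- quotients by powers of a uniformizer -/
theorem pow_div {Q : Ideal R} (hQ : Q.IsPrime) {w : R} (hw : ∀ x ∈ Q,
    InL {Q} (algebraMap R F x / algebraMap R F w)) (m : ℕ) :
    ∀ x ∈ Q ^ m, InL {Q} (algebraMap R F x / algebraMap R F w ^ m) := by
  induction m with
  | zero =>
    intro x _
    rw [pow_zero, div_one]
    exact inL_of _ (sing hQ) x
  | succ m ih =>
    intro x hx
    rw [pow_succ] at hx
    refine Submodule.mul_induction_on hx (fun a ha b hb => ?_) fun a b ha hb => ?_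
    · have h1 := inL_mul (sing hQ) (ih a ha) (hw b hb)
      have e : algebraMap R F (a * b) / algebraMap R F w ^ (m + 1) =
          algebraMap R F a / algebraMap R F w ^ m * (algebraMap R F b / algebraMap R F w) := by
        rw [map_mul, pow_succ, mul_div_mul_comm]
      rw [e]
      exact h1
    · rw [map_add, add_div]
      exact inL_add (sing hQ) ha hb

/-- elements of the square of `P` -/
theorem sq_mem {P : Ideal R} (hP : P.IsPrime) {w : R} (hw0 : w ≠ 0) (hw : ∀ x ∈ P,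
    InL {P} (algebraMap R F x / algebraMap R F w)) :
    ∀ c ∈ P ^ 2, ∃ s r : R, s ∉ P ∧ r ∈ P ∧ s * c = r * w := by
  intro c hc
  rw [pow_two] at hc
  refine Submodule.mul_induction_on hc (fun a ha b hb => ?_) fun a b ha hb => ?_
  · obtain ⟨s, r, -, hs, e⟩ := hw a ha
    refine ⟨s, r * b, hs P rfl, P.mul_mem_left r hb, ?_⟩
    have e1 : algebraMap R F (s * a) = algebraMap R F (r * w) := by
      rw [map_mul, map_mul, ← e]
      rw [mul_assoc, div_mul_cancel₀ _ (am_ne hw0)]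
    have e2 : s * a = r * w := FaithfulSMul.algebraMap_injective R F e1
    show s * (a * b) = _
    rw [← mul_assoc, e2]
    ring
  · obtain ⟨s, r, hs, hr, e⟩ := ha
    obtain ⟨s1, r1, hs1, hr1, e1⟩ := hb
    refine ⟨s * s1, s1 * r + s * r1, fun h => ?_, ?_, ?_⟩
    · rcases hP.mem_or_mem h with h | h
      · exact hs h
      · exact hs1 h
    · exact P.add_mem (P.mul_mem_left _ hr) (P.mul_mem_left _ hr1)
    · linear_combination s1 * e + s * e1

/-- local integrality at finitely many primes -/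
theorem inL_of_forall (hAV : T_AV.{u}) {T : Set (Ideal R)} (hfin : T.Finite)
    (hT : ∀ q ∈ T, q.IsPrime) {a t : R} (ht : t ≠ 0)
    (h : ∀ q ∈ T, InL {q} (algebraMap R F a / algebraMap R F t)) :
    InL T (algebraMap R F a / algebraMap R F t) := by
  -- the ideal of the denominators
  let I : Ideal R :=
    { carrier := {s | ∃ r : R, algebraMap R F s * (algebraMap R F a / algebraMap R F t) =
        algebraMap R F r}
      add_mem' := by
        rintro x y ⟨r, hr⟩ ⟨r', hr'⟩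
        exact ⟨r + r', by rw [map_add, map_add, add_mul, hr, hr']⟩
      zero_mem' := ⟨0, by rw [map_zero, zero_mul]⟩
      smul_mem' := by
        rintro c x ⟨r, hr⟩
        exact ⟨c * r, by rw [smul_eq_mul, map_mul, map_mul, mul_assoc, hr]⟩ }
  have htI : t ∈ I := ⟨a, mul_div_cancel₀ _ (am_ne ht)⟩
  obtain ⟨c, hc, hc'⟩ := hAV R (insert ⊥ T) (hfin.insert ⊥) (by
      intro q hq
      rcases hq with rfl | hq
      · exact Ideal.isPrime_bot
      · exact hT q hq) 0 I (by
      intro q hq hle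
      rcases hq with rfl | hq
      · exact ht (by simpa using hle htI)
      · obtain ⟨s, r, -, hs, e⟩ := h q hq
        exact hs q rfl (hle ⟨r, e⟩))
  simp only [zero_add] at hc'
  obtain ⟨r, hr⟩ := hc
  refine ⟨c, r, ?_, fun q hq => hc' q (Set.mem_insert_of_mem _ hq), hr⟩
  have := hc' ⊥ (Set.mem_insert _ _)
  simpa using this

end api

theorem ht_eq {R : Type u} [CommRing R] [IsNoetherianRing R] {P Q : Ideal R} (hP : P.IsPrime)
    (hQ : Q.IsPrime) (h1 : P.height = 1) (h2 : Q.height = 1) (h : P ≤ Q) : P = Q := by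
  by_contra hne
  have hlt : P < Q := lt_of_le_of_ne h hne
  have h3 := Ideal.height_strict_mono_of_isPrime_of_isPrime hlt
  rw [h1, h2] at h3
  exact lt_irrefl _ h3

theorem pf_POL (hAV : T_AV.{u}) (hDVR : T_DVR.{u}) (hFIN : T_FIN.{u}) : T_POL.{u} := by
  intro R F _ _ _ _ _ _ _ S P hP B hB hBS hPB
  obtain ⟨hPp, hPh, hPp'⟩ := hP
  have hBp : ∀ Q ∈ B, Q.IsPrime := fun Q hQ => (hBS hQ).1
  -- a uniformizer outside the primes of B
  obtain ⟨w, hwP, hw0, hw1, hw2⟩ := hDVR R F P hPp hPh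
  obtain ⟨c, hc, hc'⟩ := hAV R B hB hBp w (P ^ 2) (by
    intro Q hQ hle
    have hQp := hBp Q hQ
    have h1 : P ≤ Q := Ideal.IsPrime.le_of_pow_le hle
    exact hPB (ht_eq hPp hQp hPh (hBS hQ).2.1 h1 ▸ hQ))
  obtain ⟨t, ht⟩ : ∃ t, t = w + c := ⟨_, rfl⟩
  rw [← ht] at hc'
  obtain ⟨s, r1, hs, hr1, hsc⟩ := sq_mem (F := F) hPp hw0 hw1 c hc
  have hsr : s + r1 ∉ P := fun h => hs ((P.add_mem_iff_left hr1).1 h)
  have hst : s * t = (s + r1) * w := by
    rw [ht]
    linear_combination hsc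
  have hs0 : s ≠ 0 := fun h => hs (h ▸ P.zero_mem)
  have hsr0 : s + r1 ≠ 0 := fun h => hsr (h ▸ P.zero_mem)
  have ht0 : t ≠ 0 := by
    intro h
    rw [h, mul_zero] at hst
    exact mul_ne_zero hsr0 hw0 hst.symm
  have htP : t ∈ P := by
    rw [ht]
    exact P.add_mem hwP (Ideal.pow_le_self two_ne_zero hc)
  -- the other zeros of t
  set Ds : Set (Ideal R) := {Q | (Q.IsPrime ∧ Q.height = 1 ∧ t ∈ Q) ∧ Q ≠ P} with hDs
  have hDf : Ds.Finite := ((hFIN R F).1 t ht0).subset fun Q hQ => hQ.1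
  have hm : ∀ Q ∈ Ds, ∃ m : ℕ, ∀ x ∈ Q ^ m, InL {Q} (algebraMap R F x / algebraMap R F t) := by
    intro Q hQ
    obtain ⟨⟨hQp, hQh, htQ⟩, -⟩ := hQ
    obtain ⟨w', -, hw'0, hw'1, hw'2⟩ := hDVR R F Q hQp hQh
    obtain ⟨k, hk⟩ := hw'2 (algebraMap R F t) (am_ne ht0)
    refine ⟨(-k).toNat, fun x hx => ?_⟩
    have h1 := pow_div (F := F) hQp hw'1 (-k).toNat x hx
    have h2 := (unA_inv hk).2.1
    have h3 : InL {Q} (algebraMap R F (w' ^ (((-k).toNat : ℤ) + k).toNat)) :=
      inL_of _ (sing hQp) _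
    have h4 := inL_mul (sing hQp) (inL_mul (sing hQp) h1 h2) h3
    have e : algebraMap R F x / algebraMap R F t = algebraMap R F x /
        algebraMap R F w' ^ (-k).toNat * (algebraMap R F t * algebraMap R F w' ^ k)⁻¹ *
        algebraMap R F (w' ^ (((-k).toNat : ℤ) + k).toNat) := by
      have hW : algebraMap R F w' ≠ 0 := am_ne hw'0
      have hT : algebraMap R F t ≠ 0 := am_ne ht0
      have hk0 : 0 ≤ ((-k).toNat : ℤ) + k := by
        have := Int.self_le_toNat (-k)
        omega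
      rw [map_pow, ← zpow_natCast (algebraMap R F w') (((-k).toNat : ℤ) + k).toNat,
        Int.toNat_of_nonneg hk0, zpow_add₀ hW, zpow_natCast]
      have h5 : algebraMap R F w' ^ (-k).toNat ≠ 0 := pow_ne_zero _ hW
      have h6 : algebraMap R F w' ^ k ≠ 0 := zpow_ne_zero _ hW
      field_simp
    rw [e]
    exact h4
  choose! m hm using hm
  have hPS : ∀ Q ∈ insert P B, Q.IsPrime ∧ Q.height = 1 ∧ Q ∉ Ds := by
    intro Q hQ
    rcases hQ with rfl | hQ
    · exact ⟨hPp, hPh, fun h => h.2 rfl⟩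
    · exact ⟨hBp Q hQ, (hBS hQ).2.1, fun h => hc' Q hQ h.1.2.2⟩
  obtain ⟨r0, hr0, hr0'⟩ := hAV R (insert P B) (hB.insert P) (fun Q hQ => (hPS Q hQ).1) 0
    (∏ Q ∈ hDf.toFinset, Q ^ m Q) (by
      intro Q hQ hle
      obtain ⟨h1, h2, h3⟩ := hPS Q hQ
      obtain ⟨Q', hQ', hle'⟩ := (Ideal.IsPrime.prod_le h1).1 hle
      rw [Set.Finite.mem_toFinset] at hQ'
      have h4 : Q' ≤ Q := Ideal.IsPrime.le_of_pow_le hle'
      have h5 := ht_eq hQ'.1.1 h1 hQ'.1.2.1 h2 h4
      exact h3 (h5 ▸ hQ'))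
  simp only [zero_add] at hr0'
  have hint : ∀ (x : R) (Q : Ideal R), Q.IsPrime → Q.height = 1 → Q ≠ P →
      InL {Q} (algebraMap R F (r0 * x) / algebraMap R F t) := by
    intro x Q hQp hQh hQP
    by_cases htQ : t ∈ Q
    · have hQD : Q ∈ Ds := ⟨⟨hQp, hQh, htQ⟩, hQP⟩
      refine hm Q hQD _ (Ideal.mul_mem_right _ _ ?_)
      have h1 : ∏ Q ∈ hDf.toFinset, Q ^ m Q ≤ Q ^ m Q :=
        Ideal.le_of_dvd (Finset.dvd_prod_of_mem _ (hDf.mem_toFinset.2 hQD))
      exact h1 hr0
    · exact inL_frac htQ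
  -- choice of the multiplier
  have hex : ∃ i : ℕ, ∀ Q ∈ B, t + S.p ^ (S.n + 1) * (r0 * (1 + S.p * S.p ^ i)) ∉ Q := by
    by_contra hcon
    push Not at hcon
    choose f hf using hcon
    have : Finite B := hB
    obtain ⟨i, j, hij, hfij⟩ := Finite.exists_ne_map_eq_of_infinite
      (fun i : ℕ => (⟨f i, (hf i).1⟩ : B))
    rw [Subtype.mk_eq_mk] at hfij
    have key : ∀ i j : ℕ, i < j → f i = f j → False := by
      intro i j hij hfij
      have hQ := (hf i).1
      have hQp := hBp _ hQ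
      have h1 := (hf i).2
      have h2 := (hf j).2
      rw [← hfij] at h2
      have h3 := (f i).sub_mem h1 h2
      obtain ⟨d, rfl⟩ := Nat.exists_eq_add_of_lt hij
      have e : t + S.p ^ (S.n + 1) * (r0 * (1 + S.p * S.p ^ i)) -
          (t + S.p ^ (S.n + 1) * (r0 * (1 + S.p * S.p ^ (i + d + 1)))) =
          S.p ^ (S.n + 1) * (r0 * (S.p ^ (i + 1) * (1 + S.p * (-S.p ^ d)))) := by
        ring
      rw [e] at h3
      have hpQ : S.p ∉ f i := (hBS hQ).2.2
      have hpk : ∀ k : ℕ, S.p ^ k ∉ f i := fun k h => hpQ (hQp.mem_of_pow_mem k h)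
      rcases hQp.mem_or_mem h3 with h4 | h4
      · exact hpk _ h4
      rcases hQp.mem_or_mem h4 with h5 | h5
      · exact hr0' _ (Set.mem_insert_of_mem _ hQ) h5
      rcases hQp.mem_or_mem h5 with h6 | h6
      · exact hpk _ h6
      · exact hQp.ne_top (Ideal.eq_top_of_isUnit_mem _ h6 (S.pJ _))
    rcases lt_or_gt_of_ne hij with h | h
    · exact key i j h hfij
    · exact key j i h hfij.symm
  obtain ⟨i, hi⟩ := hex
  have hint' : ∀ Q : Ideal R, Q.IsPrime → Q.height = 1 → Q ≠ P →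
      InL {Q} (algebraMap R F (r0 * (1 + S.p * S.p ^ i)) / algebraMap R F t) := hint _
  obtain ⟨r, hr⟩ : ∃ r, r = r0 * (1 + S.p * S.p ^ i) := ⟨_, rfl⟩
  rw [← hr] at hint'
  simp only [← hr] at hi
  have hrn : ∀ Q ∈ insert P B, r ∉ Q := by
    intro Q hQ h
    rw [hr] at h
    rcases (hPS Q hQ).1.mem_or_mem h with h | h
    · exact hr0' Q hQ h
    · exact (hPS Q hQ).1.ne_top (Ideal.eq_top_of_isUnit_mem _ h (S.pJ _))
  have hrP : r ∉ P := hrn P (Set.mem_insert _ _)
  have hr00 : r ≠ 0 := fun h => hrP (h ▸ P.zero_mem)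
  have hnum : t + S.p ^ (S.n + 1) * r ∉ P := by
    intro h
    have h1 : S.p ^ (S.n + 1) * r ∈ P := (P.add_mem_iff_right htP).1 h
    rcases hPp.mem_or_mem h1 with h2 | h2
    · exact hPp' (hPp.mem_of_pow_mem _ h2)
    · exact hrP h2
  have hnum0 : t + S.p ^ (S.n + 1) * r ≠ 0 := fun h => hnum (h ▸ P.zero_mem)
  have hT : algebraMap R F t ≠ 0 := am_ne ht0
  have hRr : algebraMap R F r ≠ 0 := am_ne hr00
  have e1 : 1 + algebraMap R F S.p ^ (S.n + 1) * (algebraMap R F r / algebraMap R F t) =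
      algebraMap R F (t + S.p ^ (S.n + 1) * r) / algebraMap R F t := by
    rw [map_add, map_mul, map_pow]
    field_simp
  refine ⟨algebraMap R F r / algebraMap R F t, div_ne_zero hRr hT, ?_, ?_, ?_, ?_, ?_, ?_⟩
  · rw [e1]
    exact div_ne_zero (am_ne hnum0) hT
  · refine inL_of_forall hAV ((hFIN R F).2.2 S).1 (fun q hq => hq.1) ht0 fun q hq => ?_
    exact hint' q hq.1 hq.2.1 fun h => hPp' (h ▸ hq.2.2)
  · intro f hf
    obtain ⟨k, hk⟩ := hw2 f hf
    refine ⟨-k, ?_⟩
    have hu : UnA P (algebraMap R F (s + r1) / algebraMap R F s) := unA_frac hsr hs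
    have hrr : UnA P (algebraMap R F r / algebraMap R F (1 : R)) :=
      unA_frac hrP (fun h => hPp.ne_top ((Ideal.eq_top_iff_one P).2 h))
    rw [map_one, div_one] at hrr
    have h1 := unA_mul hPp hk (unA_zpow hPp (unA_mul hPp hu (unA_inv hrr)) k)
    have e2 : f * (algebraMap R F r / algebraMap R F t) ^ (-k) = f * algebraMap R F w ^ k *
        (algebraMap R F (s + r1) / algebraMap R F s * (algebraMap R F r)⁻¹) ^ k := by
      rw [mul_assoc, ← mul_zpow, zpow_neg, ← inv_zpow, inv_div]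
      congr 2
      have e3 : algebraMap R F s * algebraMap R F t =
          algebraMap R F (s + r1) * algebraMap R F w := by
        rw [← map_mul, ← map_mul, hst]
      have hS : algebraMap R F s ≠ 0 := am_ne hs0
      field_simp
      linear_combination e3
    rw [e2]
    exact h1
  · rw [e1]
    have e2 : algebraMap R F (t + S.p ^ (S.n + 1) * r) / algebraMap R F t /
        (algebraMap R F r / algebraMap R F t) =
        algebraMap R F (t + S.p ^ (S.n + 1) * r) / algebraMap R F r := by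
      field_simp
    rw [e2]
    exact unA_frac hnum hrP
  · intro Q hQ hQP
    exact hint' Q hQ.1 hQ.2.1 hQP
  · intro Q hQ
    have h1 : r ∉ Q := hrn Q (Set.mem_insert_of_mem _ hQ)
    refine ⟨unA_frac h1 (hc' Q hQ), ?_⟩
    rw [e1]
    exact unA_frac (hi Q hQ) (hc' Q hQ)

end Pool.Agent.H94.KST
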